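import Pool.Agent.Helper99_Eng3.Stmts

/-!
# Squad ENG part 3 (MP_da8eb3_al): OTR, isometric embeddings
-/

set_option autoImplicit false

namespace Pool.Agent.Eng.H99

open Pool.Agent.Eng

theorem map_eng {G H : Type} [Group G] [Group H] (f : G →* H) (y x : G) :
    f (eng y x) = eng (f y) (f x) := by
  simp [eng]

theorem map_eng_iter {G H : Type} [Group G] [Group H] (f : G →* H) (y : G) (n : ℕ) (x : G) :
    f ((eng y)^[n] x) = (eng (f y))^[n] (f x) := by
  induction n generalizing x with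
  | zero => rfl
  | succ n ih => rw [Function.iterate_succ_apply, Function.iterate_succ_apply, ih, map_eng]

theorem OmV_le {F V : Type} [Field F] [AddCommGroup V] [Module F V] (Q : QuadraticForm F V) :
    OmV Q ≤ OV Q := by
  rw [OmV, Subgroup.commutator_le]
  intro a ha b hb
  exact (OV Q).mul_mem ((OV Q).mul_mem ((OV Q).mul_mem ha hb) ((OV Q).inv_mem ha))
    ((OV Q).inv_mem hb)

theorem iota_inj {F U V : Type} [Field F] [AddCommGroup U] [Module F U]
    [AddCommGroup V] [Module F V] (P : QuadraticForm F U) (Q : QuadraticForm F V)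
    (ι : U →ₗ[F] V) (hP : ND P) (hι : ∀ u, Q (ι u) = P u) : Function.Injective ι := by
  rw [injective_iff_map_eq_zero]
  intro u hu
  refine hP u fun v => ?_
  have h1 : QuadraticMap.polar P u v = QuadraticMap.polar Q (ι u) (ι v) := by
    simp only [QuadraticMap.polar, ← map_add, hι]
  rw [h1, hu]
  simp [QuadraticMap.polar]

theorem otr (hext : OextStmt) : OtrStmt := by
  intro F U V _ _ _ _ _ _ _ P Q ι hP hι d ⟨r, hr⟩
  obtain ⟨Φ, hΦ1, hΦ2, -, hΦ4⟩ := hext F U V P Q ι hP hι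
  refine ⟨r, fun x hx y hy => ?_⟩
  obtain ⟨c, hc⟩ := hr (Φ ⟨x, hx⟩) (hΦ1 _) (Φ ⟨y, OmV_le P hy⟩) (hΦ4 _ hy)
  refine ⟨c, fun v => ?_⟩
  have key : ∀ n : ℕ, ∀ u : U, ((eng (Φ ⟨y, OmV_le P hy⟩))^[n] (Φ ⟨x, hx⟩)) (ι u)
      = ι (((eng y)^[n] x) u) := by
    intro n u
    rw [← map_eng_iter, hΦ2]
    congr 1
    have := map_eng_iter (OV P).subtype (⟨y, OmV_le P hy⟩ : ↥(OV P)) n ⟨x, hx⟩
    simp only [Subgroup.subtype_apply] at this
    rw [this]
  have h1 := hc (ι v)
  rw [key, key, ← map_smul] at h1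
  exact iota_inj P Q ι hP hι h1

end Pool.Agent.Eng.H99
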