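import Pool.Agent.Helper99_Eng.Otr

/-!
# Squad ENG part 3 (MP_da8eb3_al): OT8, Engel cycles of length 8 in `SL(3,2)`
-/

set_option autoImplicit false

namespace Pool.Agent.Eng.H99

open Matrix Pool.Agent.Eng

abbrev S32 : Type := SpecialLinearGroup (Fin 3) (ZMod 2)

def cyc8 : Fin 8 → S32 := ![
  ⟨!![0, 0, 1; 0, 1, 0; 1, 1, 0], by decide⟩, ⟨!![0, 1, 1; 1, 1, 0; 1, 1, 1], by decide⟩,
  ⟨!![1, 1, 1; 1, 1, 0; 1, 0, 1], by decide⟩, ⟨!![0, 1, 1; 0, 0, 1; 1, 0, 0], by decide⟩,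
  ⟨!![1, 1, 0; 0, 1, 0; 1, 1, 1], by decide⟩, ⟨!![1, 0, 1; 1, 1, 1; 1, 1, 0], by decide⟩,
  ⟨!![0, 1, 0; 1, 1, 1; 1, 0, 0], by decide⟩, ⟨!![1, 1, 0; 0, 0, 1; 1, 0, 1], by decide⟩]

def cyc8i : Fin 8 → S32 := ![
  ⟨!![0, 1, 1; 0, 1, 0; 1, 0, 0], by decide⟩, ⟨!![1, 0, 1; 1, 1, 1; 0, 1, 1], by decide⟩,
  ⟨!![1, 1, 1; 1, 0, 1; 1, 1, 0], by decide⟩, ⟨!![0, 0, 1; 1, 1, 0; 0, 1, 0], by decide⟩,
  ⟨!![1, 1, 0; 0, 1, 0; 1, 0, 1], by decide⟩, ⟨!![1, 1, 1; 1, 1, 0; 0, 1, 1], by decide⟩,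
  ⟨!![0, 0, 1; 1, 0, 0; 1, 1, 1], by decide⟩, ⟨!![0, 1, 1; 1, 1, 1; 0, 1, 0], by decide⟩]

def yu : S32 := ⟨!![1, 1, 0; 0, 1, 1; 0, 0, 1], by decide⟩
def yui : S32 := ⟨!![1, 1, 1; 0, 1, 1; 0, 0, 1], by decide⟩

theorem cyc8_inv (i : Fin 8) : (cyc8 i)⁻¹ = cyc8i i := by
  apply inv_eq_of_mul_eq_one_right
  revert i
  decide

theorem yu_inv : yu⁻¹ = yui := inv_eq_of_mul_eq_one_right (by decide)

theorem eng_cyc8 (i : Fin 8) : eng yu (cyc8 i) = cyc8 (i + 1) := by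
  rw [eng, cyc8_inv, yu_inv]
  revert i
  decide

theorem cyc8_injective : ∀ i j : Fin 8, cyc8 i = cyc8 j → i = j := by
  decide

theorem eng_iter (n : ℕ) : (eng yu)^[n] (cyc8 0) = cyc8 (Fin.ofNat 8 n) := by
  induction n with
  | zero => rfl
  | succ n ih =>
    rw [Function.iterate_succ_apply', ih, eng_cyc8]
    congr 1
    apply Fin.ext
    simp [Fin.val_add, Fin.ofNat]

theorem period8 (r d : ℕ) (h : (eng yu)^[r + d] (cyc8 0) = (eng yu)^[r] (cyc8 0)) : 8 ∣ d := by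
  rw [eng_iter, eng_iter] at h
  have h1 := congrArg Fin.val (cyc8_injective _ _ h)
  simp only [Fin.ofNat] at h1
  omega

def ya : S32 := ⟨!![0, 0, 1; 0, 1, 0; 1, 1, 0], by decide⟩
def yb : S32 := ⟨!![0, 0, 1; 1, 0, 0; 1, 1, 1], by decide⟩
def yai : S32 := ⟨!![0, 1, 1; 0, 1, 0; 1, 0, 0], by decide⟩
def ybi : S32 := ⟨!![0, 1, 0; 1, 1, 1; 1, 0, 0], by decide⟩

theorem ya_inv : ya⁻¹ = yai := inv_eq_of_mul_eq_one_right (by decide)
theorem yb_inv : yb⁻¹ = ybi := inv_eq_of_mul_eq_one_right (by decide)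

theorem yu_comm : yu = ya * yb * ya⁻¹ * yb⁻¹ := by
  rw [ya_inv, yb_inv]
  decide

section hats
variable {F : Type} [Field F]

/-- The action of `SL(3,F)` on `F³ ⊕ F³`. -/
noncomputable def hat8 : SpecialLinearGroup (Fin 3) F →*
    (((Fin 3 → F) × (Fin 3 → F)) ≃ₗ[F] ((Fin 3 → F) × (Fin 3 → F))) :=
  MonoidHom.mk' (fun g => LinearEquiv.prodCongr (SpecialLinearGroup.toLin' g)
    (SpecialLinearGroup.toLin' (g⁻¹).transpose)) (by
      intro a b
      apply LinearEquiv.ext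
      intro u
      refine Prod.ext ?_ ?_
      · change SpecialLinearGroup.toLin' (a * b) u.1
          = SpecialLinearGroup.toLin' a (SpecialLinearGroup.toLin' b u.1)
        rw [map_mul]
        rfl
      · change SpecialLinearGroup.toLin' ((a * b)⁻¹).transpose u.2
          = SpecialLinearGroup.toLin' (a⁻¹).transpose (SpecialLinearGroup.toLin' (b⁻¹).transpose u.2)
        have h : ((a * b)⁻¹).transpose = (a⁻¹).transpose * (b⁻¹).transpose := by
          rw [_root_.mul_inv_rev]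
          apply Subtype.ext
          exact Matrix.transpose_mul (M := (b⁻¹ : SpecialLinearGroup (Fin 3) F).1)
            (N := (a⁻¹ : SpecialLinearGroup (Fin 3) F).1)
        rw [h, map_mul]
        rfl)

theorem hat8_apply (g : SpecialLinearGroup (Fin 3) F) (u : (Fin 3 → F) × (Fin 3 → F)) :
    hat8 g u = ((g : Matrix (Fin 3) (Fin 3) F) *ᵥ u.1,
      ((g⁻¹ : SpecialLinearGroup (Fin 3) F) : Matrix (Fin 3) (Fin 3) F)ᵀ *ᵥ u.2) := by
  refine Prod.ext ?_ ?_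
  · change SpecialLinearGroup.toLin' g u.1 = _
    rw [SpecialLinearGroup.toLin'_apply, Matrix.toLin'_apply]
  · change SpecialLinearGroup.toLin' (g⁻¹).transpose u.2 = _
    rw [SpecialLinearGroup.toLin'_apply, Matrix.toLin'_apply, SpecialLinearGroup.coe_transpose]

theorem hat8_dot (g : SpecialLinearGroup (Fin 3) F) (u : (Fin 3 → F) × (Fin 3 → F)) :
    (hat8 g u).1 ⬝ᵥ (hat8 g u).2 = u.1 ⬝ᵥ u.2 := by
  rw [hat8_apply]
  simp only
  have h : (((g⁻¹ : SpecialLinearGroup (Fin 3) F) : Matrix (Fin 3) (Fin 3) F)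
      * (g : Matrix (Fin 3) (Fin 3) F)) = 1 := by
    have h1 : (g⁻¹ * g : SpecialLinearGroup (Fin 3) F) = 1 := inv_mul_cancel g
    exact congrArg (fun x : SpecialLinearGroup (Fin 3) F => (x : Matrix (Fin 3) (Fin 3) F)) h1
  rw [Matrix.mulVec_transpose, dotProduct_comm, ← Matrix.dotProduct_mulVec, Matrix.mulVec_mulVec, h,
    Matrix.one_mulVec, dotProduct_comm]

end hats

theorem ot8 (hyd : OhydStmt) (hyb : OhybStmt) (htr : OtrStmt) : Ot8Stmt := by
  intro F V _ _ _ _ _ Q hND h2 hdim d hd hlaw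
  obtain ⟨W, hW, hW0⟩ := hyd F V Q 3 hND (by omega)
  obtain ⟨ι, hι⟩ := hyb F V Q 3 W hND hW hW0
  let P : QuadraticForm F ((Fin 3 → F) × (Fin 3 → F)) := Q.comp ι
  have hP : ∀ u : (Fin 3 → F) × (Fin 3 → F), P u = u.1 ⬝ᵥ u.2 := fun u => hι u.1 u.2
  have hpol : ∀ u v : (Fin 3 → F) × (Fin 3 → F),
      QuadraticMap.polar P u v = u.1 ⬝ᵥ v.2 + v.1 ⬝ᵥ u.2 := by
    intro u v
    simp only [QuadraticMap.polar, hP, Prod.fst_add, Prod.snd_add, add_dotProduct, dotProduct_add]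
    ring
  have hPND : ND P := by
    intro u hu
    refine Prod.ext ?_ ?_
    · funext i
      have := hu (0, Pi.single i 1)
      rw [hpol] at this
      simpa using this
    · funext i
      have := hu (Pi.single i 1, 0)
      rw [hpol] at this
      simpa using this
  obtain ⟨r, hr⟩ := htr F _ V P Q ι hPND (fun u => rfl) d hlaw
  have : CharP F 2 := CharTwo.of_one_ne_zero_of_two_eq_zero one_ne_zero h2
  set cst : ZMod 2 →+* F := ZMod.castHom (dvd_refl 2) F with hcst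
  have hcinj : Function.Injective cst := cst.injective
  let f : S32 →* SpecialLinearGroup (Fin 3) F := SpecialLinearGroup.map cst
  have hf : ∀ (g : S32) (i j : Fin 3), (f g : Matrix (Fin 3) (Fin 3) F) i j
      = cst ((g : Matrix (Fin 3) (Fin 3) (ZMod 2)) i j) := fun g i j => rfl
  let Φ : S32 →* (((Fin 3 → F) × (Fin 3 → F)) ≃ₗ[F] ((Fin 3 → F) × (Fin 3 → F))) := hat8.comp f
  have hΦ : ∀ g, Φ g ∈ OV P := by
    intro g u
    rw [hP, hP]
    exact hat8_dot (f g) u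
  have hy : Φ yu ∈ OmV P := by
    rw [yu_comm, map_mul, map_mul, map_mul, map_inv, map_inv]
    exact Subgroup.commutator_mem_commutator (hΦ ya) (hΦ yb)
  obtain ⟨c, hc⟩ := hr (Φ (cyc8 0)) (hΦ _) (Φ yu) hy
  rw [← map_eng_iter, ← map_eng_iter] at hc
  apply period8 r d
  set A := (eng yu)^[r + d] (cyc8 0) with hA
  set B := (eng yu)^[r] (cyc8 0) with hB
  have hent : ∀ i j : Fin 3, cst ((A : Matrix (Fin 3) (Fin 3) (ZMod 2)) i j)
      = c * cst ((B : Matrix (Fin 3) (Fin 3) (ZMod 2)) i j) := by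
    intro i j
    have h1 := hc (Pi.single j 1, 0)
    have h3 : (hat8 (f A) (Pi.single j 1, 0)).1 i = (c • hat8 (f B) (Pi.single j 1, 0)).1 i :=
      congrFun (congrArg Prod.fst h1) i
    rw [hat8_apply, hat8_apply] at h3
    simpa [hf] using h3
  have hex : ∃ i j : Fin 3, (B : Matrix (Fin 3) (Fin 3) (ZMod 2)) i j = 1 := by
    by_contra hne
    push Not at hne
    have h0 : (B : Matrix (Fin 3) (Fin 3) (ZMod 2)) = 0 := by
      ext i j
      have h4 := hne i j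
      have h5 := (by decide : ∀ z : ZMod 2, z ≠ 1 → z = 0) _ h4
      rw [h5]
      rfl
    have h6 := B.2
    rw [h0] at h6
    simp at h6
  obtain ⟨i0, j0, hij⟩ := hex
  have hc1 : c = 1 := by
    have h7 := hent i0 j0
    rw [hij, map_one, mul_one] at h7
    rcases (by decide : ∀ z : ZMod 2, z = 0 ∨ z = 1) ((A : Matrix (Fin 3) (Fin 3) (ZMod 2)) i0 j0)
      with h8 | h8
    · exfalso
      rw [h8, map_zero] at h7
      have h0 : (A : Matrix (Fin 3) (Fin 3) (ZMod 2)) = 0 := by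
        ext i j
        have h9 := hent i j
        rw [← h7, zero_mul] at h9
        exact hcinj (by rw [h9]; simp)
      have h6 := A.2
      rw [h0] at h6
      simp at h6
    · rw [h8, map_one] at h7
      exact h7.symm
  apply Subtype.ext
  ext i j
  apply hcinj
  have := hent i j
  rw [hc1, one_mul] at this
  exact this

end Pool.Agent.Eng.H99
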