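import Pool.Agent.Helper99_Eng3.Stmts
set_option autoImplicit false
namespace Pool.Agent.Eng.H99
open Pool.Agent.Eng

theorem exists_scale (N : ℕ) (hN : 7 ≤ N) : ∃ j : ℕ, 1 ≤ j ∧ 2 * 2 ^ j < N ∧ N ≤ 4 * 2 ^ j := by
  classical
  have hex : ∃ j : ℕ, N ≤ 4 * 2 ^ j := ⟨N, by
    have := Nat.lt_two_pow_self (n := N)
    omega⟩
  have h1 := Nat.find_spec hex
  set j := Nat.find hex with hj
  have h0 : 1 ≤ j := by
    rcases Nat.eq_zero_or_pos j with h | h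
    · rw [h] at h1
      norm_num at h1
      omega
    · exact h
  refine ⟨j, h0, ?_, h1⟩
  have h2 : ¬ N ≤ 4 * 2 ^ (j - 1) := Nat.find_min hex (by omega)
  have h3 : 2 ^ j = 2 * 2 ^ (j - 1) := by
    rw [← pow_succ']
    congr 1
    omega
  omega

theorem otwo (h1 : Od2uStmt) (h2 : Od2lStmt) : OtwoStmt := by
  intro F V _ _ _ _ _ Q k hQ hN h2F hy
  obtain ⟨j, hj1, hj2, hj3⟩ := exists_scale _ hN
  have h4 : 2 ≤ 2 ^ j := by
    calc 2 = 2 ^ 1 := rfl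
      _ ≤ 2 ^ j := Nat.pow_le_pow_right (by norm_num) hj1
  exact h2 F V Q (2 ^ j) k hQ h2F h4 hj2 (h1 F V Q j k hQ h2F hj1 hj2 hj3 hy)

end Pool.Agent.Eng.H99
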