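import Pool.Agent.Helper99_Eng3.Stmts

/-!
# Squad ENG part 3 (MP_da8eb3_al): OWR, long Engel cycles in a wreath product
-/

set_option autoImplicit false

namespace Pool.Agent.Eng.H99

open Pool.Agent.Eng

section Wr
variable {m : ℕ} {R : Type} [CommRing R]

/-- Pairs of a vector and a sign vector. -/
def prs (n : ZMod m → R) (e : ZMod m → ℤˣ) (j : ZMod m) : R × ℤˣ := (n j, e j)

/-- The twisted shift. -/
def Cc (x : ZMod m → R × ℤˣ) (j : ZMod m) : R × ℤˣ :=
  (if j = -1 then (x 0).1 - 1 + (((x 0).2 : ℤ) : R) else (x (j + 1)).1, (x (j + 1)).2)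

theorem tw_eq (x : ZMod m → R × ℤˣ) (j : ZMod m) :
    tw x j = ((((x j).2 : ℤ) : R) * ((Cc x j).1 - (x j).1), (x j).2 * (Cc x j).2) := rfl

theorem sg_sq (u : ℤˣ) : (((u : ℤ) : R)) * ((u : ℤ) : R) = 1 := by
  rcases Int.units_eq_one_or u with h | h <;> simp [h]

theorem tw_comm (x : ZMod m → R × ℤˣ) : tw (Cc x) = Cc (tw x) := by
  funext j
  by_cases hj : j = -1
  · subst hj
    have h0 : (-1 : ZMod m) + 1 = 0 := by ring
    rw [tw_eq]
    refine Prod.ext ?_ ?_
    · simp only [Cc, if_true, h0, tw_eq, Units.val_mul, Int.cast_mul]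
      have := sg_sq (R := R) (x 0).2
      linear_combination -this
    · simp only [Cc, h0, tw_eq]
  · rw [tw_eq]
    refine Prod.ext ?_ ?_
    · simp only [Cc, hj, if_false, tw_eq]
    · simp only [Cc, tw_eq]

theorem tw_comm_iter (a b : ℕ) (x : ZMod m → R × ℤˣ) :
    tw^[a] (Cc^[b] x) = Cc^[b] (tw^[a] x) := by
  have h : Function.Commute (tw (m := m) (R := R)) Cc := tw_comm
  exact (h.iterate_iterate a b).eq x

theorem Cc_sign (k : ℕ) (x : ZMod m → R × ℤˣ) (j : ZMod m) :
    (Cc^[k] x j).2 = (x (j + (k : ZMod m))).2 := by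
  induction k generalizing x j with
  | zero => simp
  | succ k ih =>
    rw [Function.iterate_succ_apply, ih]
    simp only [Cc]
    congr 2
    push_cast
    ring

theorem tw_sign (k : ℕ) (x : ZMod m → R × ℤˣ) :
    (fun j => (tw^[k] x j).2) = tws^[k] (fun j => (x j).2) := by
  induction k generalizing x with
  | zero => rfl
  | succ k ih =>
    rw [Function.iterate_succ_apply, ih, Function.iterate_succ_apply]
    rfl

theorem tws_shift (k : ℕ) (e : ZMod m → ℤˣ) (l : ZMod m) :
    tws^[k] (fun j => e (j + l)) = fun j => (tws^[k] e) (j + l) := by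
  induction k generalizing e with
  | zero => rfl
  | succ k ih =>
    rw [Function.iterate_succ_apply, Function.iterate_succ_apply, ← ih]
    congr 1
    funext j
    simp only [tws]
    congr 2
    ring

/-- The unwrapped sequence. -/
def Xt (x : ZMod m → R × ℤˣ) (l : ℕ) : R × ℤˣ :=
  ((x (l : ZMod m)).1 + ((l / m : ℕ) : R) * ((((x (l : ZMod m)).2 : ℤ) : R) - 1),
    (x (l : ZMod m)).2)

theorem Cc_iter [NeZero m] (k : ℕ) (x : ZMod m → R × ℤˣ) (j : ZMod m) :
    Cc^[k] x j = Xt x (j.val + k) := by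
  have hm : 0 < m := Nat.pos_of_ne_zero (NeZero.ne m)
  induction k generalizing j with
  | zero =>
    have h1 : j.val / m = 0 := Nat.div_eq_of_lt (ZMod.val_lt j)
    simp [Xt, h1]
  | succ k ih =>
    rw [Function.iterate_succ_apply']
    by_cases hj : j = -1
    · subst hj
      have h0 : (-1 : ZMod m) + 1 = 0 := by ring
      have hval : (-1 : ZMod m).val + (k + 1) = k + m := by
        obtain ⟨m', rfl⟩ : ∃ m', m = m' + 1 := ⟨m - 1, by omega⟩
        rw [ZMod.val_neg_one]
        omega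
      have hdiv : (k + m) / m = k / m + 1 := Nat.add_div_right k hm
      have hc : ((k + m : ℕ) : ZMod m) = (k : ZMod m) := by simp
      rw [hval]
      refine Prod.ext ?_ ?_
      · simp only [Cc, if_true]
        rw [ih]
        simp only [Xt, ZMod.val_zero, zero_add, hdiv, hc]
        push_cast
        ring
      · simp only [Cc, h0]
        rw [ih]
        simp only [Xt, ZMod.val_zero, zero_add, hc]
    · have hval : (j + 1).val = j.val + 1 := by
        rcases Nat.lt_or_ge 1 m with h1 | h1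
        · have : Fact (1 < m) := ⟨h1⟩
          rw [ZMod.val_add_of_lt, ZMod.val_one]
          rw [ZMod.val_one]
          have hlt := ZMod.val_lt j
          rcases Nat.lt_or_ge (j.val + 1) m with h2 | h2
          · exact h2
          · exfalso
            apply hj
            have h3 : j.val + 1 = m := by omega
            have h4 : ((j.val + 1 : ℕ) : ZMod m) = 0 := by rw [h3]; simp
            push_cast at h4
            rw [ZMod.natCast_zmod_val] at h4
            exact eq_neg_of_add_eq_zero_left h4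
        · exfalso
          apply hj
          have : m = 1 := by omega
          subst this
          exact Subsingleton.elim _ _
      refine Prod.ext ?_ ?_
      · simp only [Cc, hj, if_false]
        rw [ih, hval]
        congr 1
        congr 1
        omega
      · simp only [Cc]
        rw [ih, hval]
        congr 1
        congr 1
        omega

theorem Cc_full [NeZero m] (k : ℕ) (n : ZMod m → R) (e : ZMod m → ℤˣ) :
    Cc^[m * k] (prs n e) = prs (fun j => n j + (k : R) * (((e j : ℤ) : R) - 1)) e := by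
  have hm : 0 < m := Nat.pos_of_ne_zero (NeZero.ne m)
  funext j
  rw [Cc_iter]
  have h1 : (j.val + m * k) / m = k := by
    rw [Nat.add_mul_div_left _ _ hm, Nat.div_eq_of_lt (ZMod.val_lt j), zero_add]
  have h2 : ((j.val + m * k : ℕ) : ZMod m) = j := by
    push_cast
    simp
  simp only [Xt, h1, h2, prs]

/-- Linear lifts on a fibre. -/
def LiftAt (f : (ZMod m → R × ℤˣ) → (ZMod m → R × ℤˣ)) (e e' : ZMod m → ℤˣ)
    (φ : ((ZMod m → R) × R) →ₗ[R] ((ZMod m → R) × R)) : Prop :=
  (∀ n, f (prs n e) = prs (φ (n, 1)).1 e') ∧ ∀ w, (φ w).2 = w.2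

theorem LiftAt.comp {f g : (ZMod m → R × ℤˣ) → (ZMod m → R × ℤˣ)} {e e' e'' : ZMod m → ℤˣ}
    {φ ψ : ((ZMod m → R) × R) →ₗ[R] ((ZMod m → R) × R)} (hf : LiftAt f e e' φ)
    (hg : LiftAt g e' e'' ψ) : LiftAt (g ∘ f) e e'' (ψ ∘ₗ φ) := by
  refine ⟨fun n => ?_, fun w => ?_⟩
  · have h1 : φ (n, 1) = ((φ (n, 1)).1, 1) := Prod.ext rfl (hf.2 (n, 1))
    rw [Function.comp_apply, hf.1, hg.1, LinearMap.comp_apply, h1]
  · rw [LinearMap.comp_apply, hg.2, hf.2]

/-- The linear lift of the twisted shift. -/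
def cl (e : ZMod m → ℤˣ) : ((ZMod m → R) × R) →ₗ[R] ((ZMod m → R) × R) where
  toFun w := (fun j => if j = -1 then w.1 0 + w.2 * (((e 0 : ℤ) : R) - 1) else w.1 (j + 1), w.2)
  map_add' := by
    intro v w
    refine Prod.ext ?_ rfl
    funext j
    by_cases hj : j = -1
    · simp only [hj, if_true, Prod.fst_add, Prod.snd_add, Pi.add_apply]
      ring
    · simp only [hj, if_false, Prod.fst_add, Pi.add_apply]
  map_smul' := by
    intro c w
    refine Prod.ext ?_ rfl
    funext j
    by_cases hj : j = -1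
    · simp only [hj, if_true, Prod.smul_fst, Prod.smul_snd, Pi.smul_apply, smul_eq_mul,
        RingHom.id_apply]
      ring
    · simp only [hj, if_false, Prod.smul_fst, Pi.smul_apply, RingHom.id_apply]

/-- The linear lift of the Engel map. -/
def al (e : ZMod m → ℤˣ) : ((ZMod m → R) × R) →ₗ[R] ((ZMod m → R) × R) where
  toFun w := (fun j => ((e j : ℤ) : R) * ((cl e w).1 j - w.1 j), w.2)
  map_add' := by
    intro v w
    refine Prod.ext ?_ rfl
    funext j
    simp only [map_add, Prod.fst_add, Pi.add_apply]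
    ring
  map_smul' := by
    intro c w
    refine Prod.ext ?_ rfl
    funext j
    simp only [map_smul, Prod.smul_fst, Pi.smul_apply, smul_eq_mul, RingHom.id_apply]
    ring

theorem lift_Cc (e : ZMod m → ℤˣ) :
    LiftAt (R := R) Cc e (fun j => e (j + 1)) (cl e) := by
  refine ⟨fun n => ?_, fun w => rfl⟩
  funext j
  refine Prod.ext ?_ rfl
  by_cases hj : j = -1
  · simp only [Cc, prs, cl, hj, if_true, LinearMap.coe_mk, AddHom.coe_mk]
    ring
  · simp only [Cc, prs, cl, hj, if_false, LinearMap.coe_mk, AddHom.coe_mk]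

theorem lift_tw (e : ZMod m → ℤˣ) : LiftAt (R := R) tw e (tws e) (al e) := by
  refine ⟨fun n => ?_, fun w => rfl⟩
  funext j
  have h := congrFun ((lift_Cc (R := R) e).1 n) j
  rw [tw_eq, h]
  rfl

theorem lift_Cc_iter (k : ℕ) (e : ZMod m → ℤˣ) :
    ∃ (e' : ZMod m → ℤˣ) (φ : ((ZMod m → R) × R) →ₗ[R] ((ZMod m → R) × R)),
      LiftAt (Cc^[k]) e e' φ := by
  induction k with
  | zero => exact ⟨e, LinearMap.id, fun n => rfl, fun w => rfl⟩
  | succ k ih =>
    obtain ⟨e', φ, h⟩ := ih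
    rw [Function.iterate_succ']
    exact ⟨_, _, h.comp (lift_Cc e')⟩

theorem lift_tw_iter (k : ℕ) (e : ZMod m → ℤˣ) :
    ∃ (e' : ZMod m → ℤˣ) (φ : ((ZMod m → R) × R) →ₗ[R] ((ZMod m → R) × R)),
      LiftAt (tw^[k + 1]) e e' φ ∧ φ (fun _ => 1, 0) = 0 := by
  induction k with
  | zero =>
    refine ⟨_, _, lift_tw e, ?_⟩
    refine Prod.ext ?_ rfl
    funext j
    by_cases hj : j = -1
    · simp [al, cl, hj]
    · simp [al, cl]
  | succ k ih =>
    obtain ⟨e', φ, h, h0⟩ := ih
    rw [Function.iterate_succ']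
    refine ⟨_, _, h.comp (lift_tw e'), ?_⟩
    rw [LinearMap.comp_apply, h0, map_zero]

theorem prs_inj {n n' : ZMod m → R} {e e' : ZMod m → ℤˣ} (h : prs n e = prs n' e') :
    n = n' ∧ e = e' := by
  refine ⟨?_, ?_⟩
  · funext j
    exact congrArg Prod.fst (congrFun h j)
  · funext j
    exact congrArg Prod.snd (congrFun h j)

theorem sgn_prs (n : ZMod m → R) (e : ZMod m → ℤˣ) : (fun j => (prs n e j).2) = e := rfl

theorem lift_iter {f : (ZMod m → R × ℤˣ) → (ZMod m → R × ℤˣ)} {e : ZMod m → ℤˣ}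
    {φ : ((ZMod m → R) × R) →ₗ[R] ((ZMod m → R) × R)} (h : LiftAt f e e φ) (k : ℕ)
    (n : ZMod m → R) : f^[k] (prs n e) = prs ((φ ^ k) (n, 1)).1 e ∧ ((φ ^ k) (n, 1)).2 = 1 := by
  induction k with
  | zero => exact ⟨rfl, rfl⟩
  | succ k ih =>
    have h1 : (φ ^ k) (n, 1) = (((φ ^ k) (n, 1)).1, 1) := Prod.ext rfl ih.2
    have h2 : (φ ^ (k + 1)) (n, 1) = φ ((φ ^ k) (n, 1)) := by
      rw [pow_succ', Module.End.mul_apply]
    refine ⟨?_, ?_⟩
    · rw [Function.iterate_succ_apply', ih.1, h.1, h2]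
      rw [← h1]
    · rw [h2, h.2, ih.2]

end Wr

theorem not_p_mul {p a : ℕ} (hp : p.Prime) (ha : 1 ≤ a) {u v : ZMod (p ^ a)} (hu : IsUnit u) :
    u ≠ (p : ℕ) • v := by
  intro h
  have h1 : u ^ a = 0 := by
    rw [h, nsmul_eq_mul, mul_pow]
    have : ((p : ZMod (p ^ a))) ^ a = 0 := by
      have := ZMod.natCast_self (p ^ a)
      push_cast at this
      exact this
    rw [this, zero_mul]
  have h2 : IsUnit (u ^ a) := hu.pow a
  rw [h1] at h2
  have : Nontrivial (ZMod (p ^ a)) := by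
    have : Fact (1 < p ^ a) := ⟨Nat.one_lt_pow (by omega) hp.one_lt⟩
    infer_instance
  exact not_isUnit_zero h2

theorem owr (hrs : OwrsStmt) (haf : OaflStmt) : OwrStmt := by
  intro p b a hp hp2 hb ha
  obtain ⟨e, s, i, hs0, hi, ⟨j0, hj0⟩, hstab, hshift⟩ := hrs p b hp hp2 hb
  have hpb : 0 < p ^ b := pow_pos hp.pos b
  have : NeZero (p ^ b) := ⟨hpb.ne'⟩
  have hp3 : 3 ≤ p := by
    have := hp.two_le
    omega
  set i' : ℕ := (p ^ b - 1) * i with hi'
  have hi'p : ¬ p ∣ i' := by
    intro h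
    rcases (Nat.Prime.dvd_mul hp).1 h with h1 | h1
    · have h2 : p ∣ p ^ b := dvd_pow_self p (by omega)
      have h3 : p ∣ 1 := by
        have := (Nat.dvd_sub h2 h1)
        rwa [show p ^ b - (p ^ b - 1) = 1 by omega] at this
      exact hp.one_lt.ne' (Nat.dvd_one.1 h3)
    · exact hi h1
  have hii : i' + i = p ^ b * i := by
    rw [hi']
    obtain ⟨M, hM⟩ : ∃ M, p ^ b = M + 1 := ⟨p ^ b - 1, by omega⟩
    rw [hM]
    simp only [Nat.add_sub_cancel]
    ring
  -- the lift
  obtain ⟨s', rfl⟩ : ∃ s', s = s' + 1 := ⟨s - 1, by omega⟩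
  obtain ⟨e1, φ1, hφ1, hk1⟩ := lift_tw_iter (m := p ^ b) (R := ZMod (p ^ a)) s' e
  obtain ⟨e2, φ2, hφ2⟩ := lift_Cc_iter (m := p ^ b) (R := ZMod (p ^ a)) i' e1
  have hG := hφ1.comp hφ2
  set G : (ZMod (p ^ b) → ZMod (p ^ a) × ℤˣ) → (ZMod (p ^ b) → ZMod (p ^ a) × ℤˣ) :=
    Cc^[i'] ∘ tw^[s' + 1] with hGdef
  set φ := φ2 ∘ₗ φ1 with hφdef
  have he2 : e2 = e := by
    have h1 := hG.1 0
    have h2 : (fun j => (G (prs 0 e) j).2) = e := by
      have h3 : ∀ j, (G (prs 0 e) j).2
          = ((tw^[s' + 1] (prs (0 : ZMod (p ^ b) → ZMod (p ^ a)) e)) (j + (i' : ZMod (p ^ b)))).2 :=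
        fun j => Cc_sign i' _ j
      have h4 := tw_sign (s' + 1) (prs (0 : ZMod (p ^ b) → ZMod (p ^ a)) e)
      rw [sgn_prs, hshift] at h4
      funext j
      rw [h3]
      have h5 := congrFun h4 (j + (i' : ZMod (p ^ b)))
      rw [h5]
      congr 1
      have h6 : ((i' + i : ℕ) : ZMod (p ^ b)) = 0 := by
        rw [hii]
        push_cast
        have := ZMod.natCast_self (p ^ b)
        push_cast at this
        rw [this, zero_mul]
      push_cast at h6
      linear_combination h6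
    rw [h1] at h2
    exact h2
  rw [he2] at hG
  have hkappa : φ (fun _ => 1, 0) = 0 := by
    rw [hφdef, LinearMap.comp_apply, hk1, map_zero]
  -- tau
  set τ1 : ZMod (p ^ b) → ZMod (p ^ a) := fun j => (((e j : ℤ) : ZMod (p ^ a)) - 1) with hτ1
  have hGC : ∀ k x, G (Cc^[k] x) = Cc^[k] (G x) := by
    intro k x
    simp only [hGdef, Function.comp_apply]
    rw [tw_comm_iter, ← Function.iterate_add_apply, ← Function.iterate_add_apply, add_comm]
  have htau : φ (τ1, 0) = (τ1, 0) := by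
    have h1 := hGC (p ^ b * 1) (prs 0 e)
    rw [Cc_full, hG.1, hG.1, Cc_full] at h1
    have h2 := (prs_inj h1).1
    have h3 : (fun j => (0 : ZMod (p ^ b) → ZMod (p ^ a)) j
        + ((1 : ℕ) : ZMod (p ^ a)) * (((e j : ℤ) : ZMod (p ^ a)) - 1)) = τ1 := by
      funext j
      simp [hτ1]
    rw [h3] at h2
    have h4 : ((τ1, 1) : (ZMod (p ^ b) → ZMod (p ^ a)) × ZMod (p ^ a)) = (τ1, 0) + (0, 1) := by
      simp
    rw [h4, map_add] at h2
    refine Prod.ext ?_ (hG.2 _)
    funext j
    have h5 := congrFun h2 j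
    simp only [Prod.fst_add, Pi.add_apply, Nat.cast_one, one_mul] at h5
    simp only [hτ1]
    linear_combination h5
  refine ⟨prs 0 e, ?_⟩
  intro r n' hn' hper
  -- raise r
  have hper1 : tw^[n'] (tw^[(s' + 1) * r] (prs (0 : ZMod (p ^ b) → ZMod (p ^ a)) e))
      = tw^[(s' + 1) * r] (prs 0 e) := by
    have h1 := congrArg (tw^[s' * r]) hper
    rw [← Function.iterate_add_apply, ← Function.iterate_add_apply] at h1
    rw [← Function.iterate_add_apply]
    have h2 : n' + (s' + 1) * r = s' * r + (r + n') := by ring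
    have h3 : (s' + 1) * r = s' * r + r := by ring
    rw [h2, h3]
    exact h1
  -- v
  have hGiter : ∀ k x, G^[k] x = Cc^[i' * k] (tw^[(s' + 1) * k] x) := by
    intro k
    induction k with
    | zero => intro x; rfl
    | succ k ih =>
      intro x
      rw [Function.iterate_succ_apply', ih]
      simp only [hGdef, Function.comp_apply]
      rw [tw_comm_iter, ← Function.iterate_add_apply, ← Function.iterate_add_apply]
      have e1 : i' + i' * k = i' * (k + 1) := by ring
      have e2 : s' + 1 + (s' + 1) * k = (s' + 1) * (k + 1) := by ring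
      rw [e1, e2]
  obtain ⟨hv1, hv2⟩ := lift_iter hG r 0
  set v := ((φ ^ r) ((0 : ZMod (p ^ b) → ZMod (p ^ a)), (1 : ZMod (p ^ a)))).1 with hv
  have hfix : tw^[n'] (prs v e) = prs v e := by
    rw [← hv1, hGiter, tw_comm_iter, hper1]
  have hfixs : tw^[(s' + 1) * n'] (prs v e) = prs v e := by
    rw [mul_comm, Function.iterate_mul]
    exact Function.iterate_fixed hfix (s' + 1)
  -- signs
  have hsg : tws^[n'] e = e := by
    have h1 := tw_sign n' (prs v e)
    rw [hfix, sgn_prs] at h1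
    exact h1.symm
  have hsg2 : ∀ k : ℕ, tws^[(s' + 1) * k] e = fun j => e (j + ((i * k : ℕ) : ZMod (p ^ b))) := by
    intro k
    induction k with
    | zero => simp
    | succ k ih =>
      rw [show (s' + 1) * (k + 1) = (s' + 1) + (s' + 1) * k by ring, Function.iterate_add_apply, ih,
        tws_shift, hshift]
      funext j
      congr 1
      push_cast
      ring
  have hmn : p ^ b ∣ n' := by
    have h1 := hsg2 n'
    have h2 : tws^[(s' + 1) * n'] e = e := by
      rw [mul_comm, Function.iterate_mul]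
      exact Function.iterate_fixed hsg (s' + 1)
    rw [h2] at h1
    have h3 := hstab (i * n') fun j => (congrFun h1 j).symm
    have hcop : Nat.Coprime (p ^ b) i := Nat.Coprime.pow_left b ((Nat.Prime.coprime_iff_not_dvd hp).2 hi)
    exact hcop.dvd_of_dvd_mul_left h3
  obtain ⟨n1, hn1⟩ := hmn
  have hn1pos : 0 < n1 := by
    rcases Nat.eq_zero_or_pos n1 with h | h
    · rw [h, mul_zero] at hn1
      omega
    · exact h
  -- final identity
  have hfin : (φ ^ (p ^ b * n1)) (v, 1) = (v, 1) + (i' * n1) • (τ1, (0 : ZMod (p ^ a))) := by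
    obtain ⟨h1, h2⟩ := lift_iter hG n' v
    rw [hGiter, hfixs, show i' * n' = p ^ b * (i' * n1) by rw [hn1]; ring, Cc_full] at h1
    have h3 := (prs_inj h1).1
    rw [← hn1]
    refine Prod.ext ?_ ?_
    · rw [← h3]
      funext j
      simp [hτ1]
    · rw [h2]
      simp
  have hτp : ¬ ∃ w : (ZMod (p ^ b) → ZMod (p ^ a)) × ZMod (p ^ a), (τ1, (0 : ZMod (p ^ a))) = p • w := by
    rintro ⟨w, hw⟩
    have h1 : τ1 j0 = p • w.1 j0 := congrFun (congrArg Prod.fst hw) j0
    have h2 : τ1 j0 = ((-2 : ℤ) : ZMod (p ^ a)) := by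
      simp only [hτ1, hj0]
      push_cast
      ring
    rw [h2] at h1
    refine not_p_mul hp ha (u := ((-2 : ℤ) : ZMod (p ^ a))) (v := w.1 j0) ?_ h1
    have h4 : IsUnit ((2 : ℕ) : ZMod (p ^ a)) := by
      rw [ZMod.isUnit_iff_coprime]
      refine Nat.Coprime.pow_right a ?_
      exact (Nat.coprime_primes Nat.prime_two hp).2 (Ne.symm hp2)
    have h5 : ((-2 : ℤ) : ZMod (p ^ a)) = -((2 : ℕ) : ZMod (p ^ a)) := by
      push_cast
      ring
    rw [h5]
    exact h4.neg
  have hκp : ¬ ∃ w : (ZMod (p ^ b) → ZMod (p ^ a)) × ZMod (p ^ a),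
      ((fun _ => 1, 0) : (ZMod (p ^ b) → ZMod (p ^ a)) × ZMod (p ^ a)) = p • w := by
    rintro ⟨w, hw⟩
    have h1 := congrFun (congrArg Prod.fst hw) 0
    exact not_p_mul hp ha (u := (1 : ZMod (p ^ a))) (v := w.1 0) isUnit_one h1
  have hnt : Nontrivial (ZMod (p ^ a)) := by
    have : Fact (1 < p ^ a) := ⟨Nat.one_lt_pow (by omega) hp.one_lt⟩
    infer_instance
  have hrank : Module.finrank (ZMod (p ^ a)) ((ZMod (p ^ b) → ZMod (p ^ a)) × ZMod (p ^ a))
      = p ^ b + 1 := by
    rw [Module.finrank_prod, Module.finrank_pi, Module.finrank_self, ZMod.card]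
  have hdiv := haf p b a ((ZMod (p ^ b) → ZMod (p ^ a)) × ZMod (p ^ a)) φ (fun _ => 1, 0)
    (τ1, 0) (v, 1) i' n1 hp ha hrank hkappa hκp htau hτp hi'p hn1pos hfin
  rw [hn1, pow_add]
  exact Nat.mul_dvd_mul_left _ hdiv

end Pool.Agent.Eng.H99
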